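import Pool.Agent.TH145.GC.Main

/-!
MP_46885d_ag, Q1 and Q2: rational points over function fields on generic complete intersections in
an arbitrary constant projective variety.

Let `k` be a field, let `K` be an algebraically closed extension of `k` of characteristic `0`, and
let `k'` be the algebraic closure of `k` in `K`. Let `V` be a closed subset of projective space of
dimension `n`, defined over `k'`, of dimension at most `m`; for instance a constant projective
variety, defined over `k`. Let `E` be a field between `k` and `K` that is finitely generated over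
`k`, and let `F_a`, for `a` in a finite set `A`, be forms of degrees `d_a` with coefficients in `E`
that are generic over `k`: the ratios of the coefficients of `F_a` to one of them are, for all `a`
together, algebraically independent over `k`. Let `X` be the intersection of `V` and all
`F_a = 0`.

If `2 m + 2 ≤ ∑ (d_a + 1)`, then the set `X(E)` is finite. So the conclusion of the geometric
Bombieri-Lang conjecture holds for `X` over `E`, and for `X` over all finitely generated extensions
of `E` in `K`: `Z` is a finite set of points, and the `Z_i` are these points.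
-/

set_option autoImplicit false

namespace Pool.Agent.Results.MP_46885d_ag.GenericIntersections

open MvPolynomial LinearAlgebra.Projectivization Pool.Agent.TH145.MG

theorem result {k K : Type} [Field k] [Field K] [IsAlgClosed K] [CharZero K] [Algebra k K]
    {n m : ℕ}
    -- a closed subset of projective space, of dimension at most `m`
    (V : Set (MvPolynomial (Fin (n + 1)) (algebraicClosure k K)))
    (hVh : ∀ f ∈ V, ∃ e, f.IsHomogeneous e) (hV : DimLE (algebraicClosure k K) V m)
    -- forms of degrees `d a`
    {A : Type} [Fintype A] (d : A → ℕ) (hd : 2 * m + 2 ≤ ∑ a, (d a + 1))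
    (F : A → MvPolynomial (Fin (n + 1)) K) (hF : ∀ a, (F a).IsHomogeneous (d a))
    -- the ratios of the coefficients of the forms are algebraically independent over `k`
    (I0 : A → Fin (n + 1) →₀ ℕ) (h0 : ∀ a, (F a).coeff (I0 a) ≠ 0)
    (hgen : AlgebraicIndependent k
      fun p : (a : A) × {I : Fin (n + 1) →₀ ℕ // I.degree = d a ∧ I ≠ I0 a} =>
        (F p.1).coeff p.2.1 / (F p.1).coeff (I0 p.1))
    -- a finitely generated extension of `k`
    (E : IntermediateField k K) (hE : E.FG) :
    {p : ℙ K (Fin (n + 1) → K) | ∃ (x : Fin (n + 1) → K) (hx : x ≠ 0),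
      p = Projectivization.mk K x hx ∧ (∀ i, x i ∈ E) ∧
      (∀ f ∈ V, aeval x (map (algebraMap (algebraicClosure k K) K) f) = 0) ∧
      ∀ a, aeval x (F a) = 0}.Finite := by
  classical
  obtain ⟨T, hT⟩ := hE
  obtain ⟨G, hG⟩ : ∃ G : V ⊕ A → MvPolynomial (Fin (n + 1)) K, G = Sum.elim
    (fun f => map (algebraMap (algebraicClosure k K) K) f.1) F := ⟨_, rfl⟩
  have h1 := Pool.Agent.TH145.GC.fin_rational hd V hVh hV F hF I0 h0 hgen G
    (fun f hf => ⟨Sum.inl ⟨f, hf⟩, by rw [hG]; rfl⟩) (fun a => ⟨Sum.inr a, by rw [hG]; rfl⟩) T
  have hET : ∀ z ∈ E, z ∈ IntermediateField.adjoin (algebraicClosure k K) (T : Set K) := by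
    intro z hz
    rw [← hT] at hz
    have h2 : IntermediateField.adjoin k (T : Set K) ≤
        (IntermediateField.adjoin (algebraicClosure k K) (T : Set K)).restrictScalars k := by
      rw [IntermediateField.adjoin_le_iff]
      intro y hy
      exact IntermediateField.subset_adjoin (algebraicClosure k K) (T : Set K) hy
    exact h2 hz
  refine h1.subset ?_
  rintro p ⟨x, hx, hp, hxE, hxV, hxF⟩
  refine ⟨x, ⟨hx, fun i => ?_⟩, fun i => hET _ (hxE i), hx, hp⟩
  rw [hG]
  rcases i with f | a
  · unfold Pool.Agent.W602.GT.val
    exact hxV f.1 f.2
  · unfold Pool.Agent.W602.GT.val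
    exact hxF a

end Pool.Agent.Results.MP_46885d_ag.GenericIntersections
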